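import Pool.Agent.W_MP_5e7574_co.Exist

/-!
There is a bipartite graph `H` with an edge for which `log_p inj(H, G_p)` does not converge as
`p` runs through the primes.
-/

set_option autoImplicit false

namespace Pool.Agent.Results.MP_5e7574_co.InjNotConvergent

open Filter Topology
open Pool.Agent.W_MP_5e7574_co

/-- For some finite bipartite `H` with at least one edge, the sequence `log_p inj(H, G_p)` over
the primes `p` has `liminf` smaller than `limsup`; it has no limit in `[-∞, ∞)`. -/
theorem result :
    ∃ H : BipGraph, H.HasEdge ∧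
      liminf (logInjSeq H) atTop < limsup (logInjSeq H) atTop ∧
      ¬ ∃ L : EReal, L < ⊤ ∧ Tendsto (logInjSeq H) atTop (𝓝 L) := by
  have hlt : liminf (logInjSeq mk8) atTop < limsup (logInjSeq mk8) atTop := by
    rw [liminf_eq_bot]
    exact lt_of_lt_of_le EReal.bot_lt_zero zero_le_limsup
  refine ⟨mk8, mk8_hasEdge, hlt, ?_⟩
  rintro ⟨L, -, hL⟩
  rw [hL.liminf_eq, hL.limsup_eq] at hlt
  exact lt_irrefl _ hlt

end Pool.Agent.Results.MP_5e7574_co.InjNotConvergent
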